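import Pool.Agent.Y470.Tpl.Main

/-!
# The density threshold for rainbow cliques in colouring templates, for all `r ≥ 200`

For every `r ≥ 200` the threshold `δ_r` of Aharoni, DeVos, de la Maza, Montejano and Samal is
`1 - 1 / (r - 1)`, the Turan density.  This answers Q2 and determines `δ_r` for all `r ≥ 200`.
The starting file `AllLargeR` of this problem has `r ≥ 2 ^ 20 + 1`.  New here: the range `r ≥ 200`, and
the average form: it suffices that the AVERAGE of the numbers of edges of the `r.choose 2` colour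
classes exceeds the Turan bound, provided that each class has density at least `1 - 1 / 199`, a bound
which does not depend on `r`.  Both hold for every `n`, and for `n` divisible by `r - 1` they are
exact.

The proof is that of the starting library `Pool.Agent.W188.Tpl` with
* Hall's condition used with a threshold near `(15 / 16) k` instead of `k / 2`,
* the types defined by a star deficit below `3 k / 2` (instead of `5 k / 4`), so that the remainder
  of a maximal family of suitable sets has at least a third (instead of a fifth) of the vertices,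
* matchings counted with at most `s / 2` pairs, and the factor `4 ^ s` replaced by `3 ^ s`.
-/

set_option autoImplicit false

namespace Pool.Agent.Results.MP_d78df2_co.AverageThreshold

open Finset

/-- The template `G` (with `r.choose 2` colour classes on the vertex set `Fin n`) contains a rainbow
copy of `K_r`: there are `r` distinct vertices `v a` and a bijection `φ` from the pairs `a < b` onto
the colours such that the edge joining `v a` and `v b` belongs to the colour class `φ (a, b)`. -/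
def HasRainbowClique (r : ℕ) {n : ℕ} (G : Fin (r.choose 2) → SimpleGraph (Fin n)) : Prop :=
  ∃ v : Fin r ↪ Fin n, ∃ φ : {p : Fin r × Fin r // p.1 < p.2} ≃ Fin (r.choose 2),
    ∀ p, (G (φ p)).Adj (v p.1.1) (v p.1.2)

/-- For every sufficiently large `n`, each `n`-vertex template with `r.choose 2` colour classes all
of which have more than `δ n² / 2` edges contains a rainbow copy of `K_r`. -/
def Forces (r : ℕ) (δ : ℝ) : Prop :=
  ∃ n₀ : ℕ, ∀ n ≥ n₀, ∀ G : Fin (r.choose 2) → SimpleGraph (Fin n),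
    (∀ i, δ * (n : ℝ) ^ 2 / 2 < ((G i).edgeSet.ncard : ℝ)) → HasRainbowClique r G

theorem average (r : ℕ) (hr : 200 ≤ r) (n : ℕ) (G : Fin (r.choose 2) → SimpleGraph (Fin n))
    (hav : (r.choose 2 : ℝ) * ((1 - 1 / ((r : ℝ) - 1)) * (n : ℝ) ^ 2 / 2) <
      ∑ i, ((G i).edgeSet.ncard : ℝ))
    (hG : ∀ i, (1 - 1 / 199) * (n : ℝ) ^ 2 / 2 ≤ ((G i).edgeSet.ncard : ℝ)) :
    HasRainbowClique r G := by
  classical
  obtain ⟨s, rfl⟩ : ∃ s, r = s + 1 := ⟨r - 1, by omega⟩
  have hs : 199 ≤ s := by omega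
  have hk : 2 * (s + 1).choose 2 = (s + 1) * s := by
    rw [Nat.choose_two_right, Nat.add_sub_cancel, Nat.mul_div_cancel']
    exact (Nat.even_mul_pred_self (s + 1)).two_dvd
  have hs0 : (0 : ℝ) < s := by
    have : (0 : ℕ) < s := lt_of_lt_of_le (by norm_num) hs
    exact_mod_cast this
  let M : Fin n → Fin n → Finset (Fin ((s + 1).choose 2)) := fun x y => univ.filter fun c => (G c).Adj x y
  have e2 : ∀ c, ((∑ x, (univ.filter fun y => c ∉ M x y).card : ℕ) : ℝ) +
      2 * ((G c).edgeSet.ncard : ℝ) = (n : ℝ) ^ 2 := by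
    intro c
    have e1 : ∑ x, (univ.filter fun y => c ∉ M x y).card + 2 * (G c).edgeFinset.card = n ^ 2 := by
      rw [← SimpleGraph.sum_degrees_eq_twice_card_edges, ← sum_add_distrib]
      have : ∀ x : Fin n, (univ.filter fun y => c ∉ M x y).card + (G c).degree x = n := by
        intro x
        have h1 : (G c).degree x = (univ.filter fun y => c ∈ M x y).card := by
          rw [← SimpleGraph.card_neighborFinset_eq_degree]
          congr 1
          ext y
          simp [M]
        rw [h1, add_comm]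
        have := card_filter_add_card_filter_not (s := (univ : Finset (Fin n))) (fun y => c ∈ M x y)
        simpa using this
      rw [sum_congr rfl fun x _ => this x]
      simp [sq]
    have h2 : (G c).edgeSet.ncard = (G c).edgeFinset.card := by
      rw [Set.ncard_eq_toFinset_card']
      rfl
    rw [h2]
    exact_mod_cast e1
  have hc : ∀ c, 199 * ∑ x, (univ.filter fun y => c ∉ M x y).card ≤ Fintype.card (Fin n) ^ 2 := by
    intro c
    have h1 := hG c
    have h2 := e2 c
    have h3 : (199 : ℝ) * ((∑ x, (univ.filter fun y => c ∉ M x y).card : ℕ) : ℝ) ≤ (n : ℝ) ^ 2 := by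
      linarith
    rw [Fintype.card_fin]
    exact_mod_cast h3
  have hav' : s * ∑ c, ∑ x, (univ.filter fun y => c ∉ M x y).card <
      (s + 1).choose 2 * Fintype.card (Fin n) ^ 2 := by
    set K : ℝ := (((s + 1).choose 2 : ℕ) : ℝ) with hK
    have h1 : ((∑ c, ∑ x, (univ.filter fun y => c ∉ M x y).card : ℕ) : ℝ) =
        K * (n : ℝ) ^ 2 - 2 * ∑ i, ((G i).edgeSet.ncard : ℝ) := by
      rw [Nat.cast_sum]
      have : ∀ c, ((∑ x, (univ.filter fun y => c ∉ M x y).card : ℕ) : ℝ) =
          (n : ℝ) ^ 2 - 2 * ((G c).edgeSet.ncard : ℝ) := fun c => by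
        have := e2 c
        linarith
      rw [sum_congr rfl fun c _ => this c, sum_sub_distrib, ← mul_sum]
      simp [hK]
    have h2 : (s : ℝ) * ((∑ c, ∑ x, (univ.filter fun y => c ∉ M x y).card : ℕ) : ℝ) <
        K * (n : ℝ) ^ 2 := by
      rw [h1]
      push_cast at hav
      rw [add_sub_cancel_right] at hav
      have h3 : (s : ℝ) * (K * ((1 - 1 / (s : ℝ)) * (n : ℝ) ^ 2 / 2)) <
          s * ∑ i, ((G i).edgeSet.ncard : ℝ) := mul_lt_mul_of_pos_left hav hs0
      have h4 : (s : ℝ) * (K * ((1 - 1 / (s : ℝ)) * (n : ℝ) ^ 2 / 2)) =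
          K * (s * (n : ℝ) ^ 2 - (n : ℝ) ^ 2) / 2 := by
        field_simp
      rw [h4] at h3
      linarith
    rw [Fintype.card_fin]
    have h5 : ((s * ∑ c, ∑ x, (univ.filter fun y => c ∉ M x y).card : ℕ) : ℝ) <
        (((s + 1).choose 2 * n ^ 2 : ℕ) : ℝ) := by
      rw [Nat.cast_mul, Nat.cast_mul, Nat.cast_pow]
      exact h2
    exact Nat.cast_lt.mp h5
  have hM : ∀ x y, M x y = M y x := by
    intro x y
    ext c
    simp [M, SimpleGraph.adj_comm]
  have hd : ∀ x, M x x = ∅ := by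
    intro x
    ext c
    simp [M]
  obtain ⟨v, φ, hφ, hv⟩ := Pool.Agent.Y470.Tpl.main_upper' hk hs M hM hd hav' hc
  have hinj := Pool.Agent.W188.Tpl.rbw_inj M hd v ⟨φ, hφ, hv⟩
  have hcard : Fintype.card {p : Fin (s + 1) × Fin (s + 1) // p.1 < p.2} =
      Fintype.card (Fin ((s + 1).choose 2)) := by
    have h1 := Pool.Agent.W188.Tpl.card_pairs (s + 1)
    rw [Fintype.card_fin]
    rw [Nat.add_sub_cancel] at h1
    omega
  refine ⟨⟨v, hinj⟩, Equiv.ofBijective φ ((Fintype.bijective_iff_injective_and_card φ).mpr ⟨hφ, hcard⟩),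
    fun p => ?_⟩
  have := hv p
  simpa [M] using this

theorem upper (r : ℕ) (hr : 200 ≤ r) (n : ℕ) (G : Fin (r.choose 2) → SimpleGraph (Fin n))
    (hG : ∀ i, (1 - 1 / ((r : ℝ) - 1)) * (n : ℝ) ^ 2 / 2 < ((G i).edgeSet.ncard : ℝ)) :
    HasRainbowClique r G := by
  have hr' : (200 : ℝ) ≤ r := by exact_mod_cast hr
  refine average r hr n G ?_ fun i => le_trans ?_ (hG i).le
  · have h0 : 0 < r.choose 2 := Nat.choose_pos (by omega)
    have : Nonempty (Fin (r.choose 2)) := ⟨⟨0, h0⟩⟩
    have h1 : ∑ _i : Fin (r.choose 2), (1 - 1 / ((r : ℝ) - 1)) * (n : ℝ) ^ 2 / 2 <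
        ∑ i, ((G i).edgeSet.ncard : ℝ) := sum_lt_sum_of_nonempty univ_nonempty fun i _ => hG i
    simpa using h1
  · have h1 : 1 / ((r : ℝ) - 1) ≤ 1 / 199 := one_div_le_one_div_of_le (by norm_num) (by linarith)
    have h2 : (0 : ℝ) ≤ (n : ℝ) ^ 2 := by positivity
    nlinarith

/-- A template all of whose classes are the Turan graph has no rainbow clique. -/
theorem turan_no (s n : ℕ) (hs1 : 1 ≤ s) :
    ¬ HasRainbowClique (s + 1) (fun _ : Fin ((s + 1).choose 2) => SimpleGraph.turanGraph n s) := by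
  rintro ⟨v, φ, hv⟩
  have hmod : ∀ a b : Fin (s + 1), a < b → (v a : ℕ) % s ≠ (v b : ℕ) % s := by
    intro a b hab
    have := hv ⟨(a, b), hab⟩
    simpa [SimpleGraph.turanGraph] using this
  let f : Fin (s + 1) → Fin s := fun a => ⟨(v a : ℕ) % s, Nat.mod_lt _ hs1⟩
  have hf : Function.Injective f := by
    intro a b hab
    have hab' : (v a : ℕ) % s = (v b : ℕ) % s := congrArg Fin.val hab
    rcases lt_trichotomy a b with h1 | h1 | h1
    · exact absurd hab' (hmod a b h1)
    · exact h1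
    · exact absurd hab'.symm (hmod b a h1)
  have := Fintype.card_le_of_injective f hf
  simp at this

/-- The number of edges of the Turan graph. -/
theorem turan_card (s n : ℕ) (hs1 : 1 ≤ s) (hd : s ∣ n) :
    ((SimpleGraph.turanGraph n s).edgeSet.ncard : ℝ) = (1 - 1 / (s : ℝ)) * (n : ℝ) ^ 2 / 2 := by
  have hs0 : (0 : ℝ) < s := by exact_mod_cast hs1
  obtain ⟨m, rfl⟩ := hd
  set n := s * m with hn
  have h2 : (SimpleGraph.turanGraph n s).edgeSet.ncard =
      (SimpleGraph.turanGraph n s).edgeFinset.card := by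
    rw [Set.ncard_eq_toFinset_card']
    rfl
  have h3 : 2 * s * (SimpleGraph.turanGraph n s).edgeFinset.card = (s - 1) * n ^ 2 := by
    rw [SimpleGraph.card_edgeFinset_turanGraph]
    have : n % s = 0 := by rw [hn]; exact Nat.mul_mod_right _ _
    rw [this]
    simp only [ne_eq, OfNat.ofNat_ne_zero, not_false_eq_true, zero_pow, Nat.sub_zero,
      Nat.choose_zero_succ, add_zero]
    rw [Nat.mul_div_cancel', mul_comm]
    have h4 : 2 ∣ s * (s - 1) := (Nat.even_mul_pred_self s).two_dvd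
    have h5 : 2 * s ∣ (s * (s - 1)) * (s * m ^ 2) :=
      Nat.mul_dvd_mul h4 (Dvd.intro _ rfl)
    have h6 : n ^ 2 * (s - 1) = (s * (s - 1)) * (s * m ^ 2) := by rw [hn]; ring
    rw [h6]; exact h5
  rw [h2]
  have h7 : 2 * (s : ℝ) * ((SimpleGraph.turanGraph n s).edgeFinset.card : ℝ) =
      ((s : ℝ) - 1) * (n : ℝ) ^ 2 := by
    have : ((s - 1 : ℕ) : ℝ) = (s : ℝ) - 1 := by rw [Nat.cast_sub hs1]; simp
    rw [← this]
    exact_mod_cast h3
  have h8 : (s : ℝ) * ((SimpleGraph.turanGraph n s).edgeFinset.card : ℝ) =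
      s * ((1 - 1 / (s : ℝ)) * (n : ℝ) ^ 2 / 2) := by
    have : (s : ℝ) * ((1 - 1 / (s : ℝ)) * (n : ℝ) ^ 2 / 2) = (s - 1) * (n : ℝ) ^ 2 / 2 := by
      field_simp
    rw [this]; linarith
  exact mul_left_cancel₀ hs0.ne' h8

theorem lower (r : ℕ) (hr : 2 ≤ r) (δ : ℝ) (hδ : Forces r δ) : 1 - 1 / ((r : ℝ) - 1) ≤ δ := by
  by_contra hlt
  push Not at hlt
  obtain ⟨s, rfl⟩ : ∃ s, r = s + 1 := ⟨r - 1, by omega⟩
  have hs1 : 1 ≤ s := by omega
  push_cast at hlt
  rw [add_sub_cancel_right] at hlt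
  obtain ⟨n₀, h⟩ := hδ
  have hn0 : n₀ ≤ s * (n₀ + 1) := by nlinarith
  refine turan_no s (s * (n₀ + 1)) hs1 (h _ hn0 _ fun _ => ?_)
  rw [turan_card s _ hs1 ⟨n₀ + 1, rfl⟩]
  have hnpos : (0 : ℝ) < ((s * (n₀ + 1) : ℕ) : ℝ) ^ 2 := by
    have : 0 < s * (n₀ + 1) := by positivity
    positivity
  nlinarith

/-- **Main result.** Let `r ≥ 200`.
(1) For every `n`, each `n`-vertex template with `r.choose 2` colour classes whose average number of
edges exceeds `(1 - 1 / (r - 1)) n² / 2` and in which every class has at least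
`(1 - 1 / 199) n² / 2` edges contains a rainbow copy of `K_r`.
(2) If `r - 1` divides `n`, the bound is exact: some template all of whose classes have exactly
`(1 - 1 / (r - 1)) n² / 2` edges has no rainbow copy of `K_r`.
(3) `δ_r = 1 - 1 / (r - 1)`. -/
theorem result (r : ℕ) (hr : 200 ≤ r) :
    (∀ (n : ℕ) (G : Fin (r.choose 2) → SimpleGraph (Fin n)),
      (r.choose 2 : ℝ) * ((1 - 1 / ((r : ℝ) - 1)) * (n : ℝ) ^ 2 / 2) <
        ∑ i, ((G i).edgeSet.ncard : ℝ) →
      (∀ i, (1 - 1 / 199) * (n : ℝ) ^ 2 / 2 ≤ ((G i).edgeSet.ncard : ℝ)) →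
      HasRainbowClique r G) ∧
    (∀ n : ℕ, (r - 1) ∣ n → ∃ G : Fin (r.choose 2) → SimpleGraph (Fin n),
      (∀ i, ((G i).edgeSet.ncard : ℝ) = (1 - 1 / ((r : ℝ) - 1)) * (n : ℝ) ^ 2 / 2) ∧
      ¬ HasRainbowClique r G) ∧
    IsLeast {δ : ℝ | Forces r δ} (1 - 1 / ((r : ℝ) - 1)) := by
  refine ⟨average r hr, fun n hn => ?_,
    ⟨⟨0, fun n _ G hG => upper r hr n G hG⟩, fun δ hδ => lower r (le_trans (by norm_num) hr) δ hδ⟩⟩
  obtain ⟨s, rfl⟩ : ∃ s, r = s + 1 := ⟨r - 1, by omega⟩
  have hs1 : 1 ≤ s := by omega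
  rw [Nat.add_sub_cancel] at hn
  refine ⟨fun _ => SimpleGraph.turanGraph n s, fun _ => ?_, turan_no s n hs1⟩
  rw [turan_card s n hs1 hn]
  push_cast
  rw [add_sub_cancel_right]

end Pool.Agent.Results.MP_d78df2_co.AverageThreshold
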